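import Pool.Agent.N24.KM.All
import Pool.Agent.N265.ORB.Mult

/-!
# Metric sequences: a prime factor of one coordinate which does not divide the value of a polynomial

Owner helper107. The version for metric sequences of `Pool.Agent.N265.ORB.mult_orb` (helper265), from
the small set `Bad R P` of that file and the engine `Pool.Agent.N24.KM`.
-/

set_option autoImplicit false

namespace Pool.Agent.N107.KM

open Finset Filter MvPolynomial MeasureTheory Topology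
open Pool.Agent.N24.RW (ProNull)
open Pool.Agent.N24.KM (Koksma Rarely Metric)

section
variable {ι : Type} [Fintype ι]

/-- the frequency of the times with `c n ∈ B` is at most `η` in the limit -/
def Seldom (c : ℕ → ι → ℤ) (B : Set (ι → ℤ)) (η : ℝ) : Prop :=
  ∀ δ : ℝ, 0 < δ → ∀ᶠ N : ℕ in atTop,
    (({n : ℕ | n < N ∧ c n ∈ B}.ncard : ℕ) : ℝ) ≤ (η + δ) * N

/-- a set which is small modulo one number is seldom visited by metric sequences -/
theorem metric_eta (B : Set (ι → ℤ)) (q : ℕ) (hq : 0 < q) (η : ℝ)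
    (hB : ((((fun (c : ι → ℤ) (i : ι) => (c i : ZMod q)) '' B).ncard : ℕ) : ℝ) ≤
      η * (q : ℝ) ^ Fintype.card ι) :
    (∀ (a b : ι → ℝ) (f : ι → ℕ → ℝ → ℝ), (∀ i, a i < b i) → (∀ i, Koksma (a i) (b i) (f i)) →
      ∀ᵐ α : ι → ℝ, (∀ i, α i ∈ Set.Icc (a i) (b i)) → Seldom (fun n i => ⌊f i n (α i)⌋) B η) ∧
    (∀ (a : ι → ℕ → ℝ) (δ : ℝ), 0 < δ → (∀ i m n, m ≠ n → δ ≤ |a i m - a i n|) →
      ∀ᵐ α : ι → ℝ, Seldom (fun n i => ⌊a i n * α i⌋) B η) ∧
    (∀ (k : ℕ → ℕ) (ξ : ι → ℝ), Function.Injective k → (∀ i, ξ i ≠ 0) →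
      ∀ᵐ α : ι → ℝ, (∀ i, 1 < α i) → Seldom (fun n i => ⌊ξ i * α i ^ k n⌋) B η) := by
  have hK : ∀ (a b : ι → ℝ) (f : ι → ℕ → ℝ → ℝ), (∀ i, a i < b i) →
      (∀ i, Koksma (a i) (b i) (f i)) →
      ∀ᵐ α : ι → ℝ, (∀ i, α i ∈ Set.Icc (a i) (b i)) → Seldom (fun n i => ⌊f i n (α i)⌋) B η :=
    fun a b f hab hf => Pool.Agent.N24.KM.Kk.step Pool.Agent.N24.KM.wey Pool.Agent.N24.KM.t_TOR
      B a b f hab hf q hq η hB
  refine ⟨hK, ?_, ?_⟩
  · intro a δ hδ ha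
    have h1 : ∀ j : ℕ, ∀ᵐ α : ι → ℝ,
        (∀ i, α i ∈ Set.Icc (-((j : ℝ) + 1)) ((j : ℝ) + 1)) →
        Seldom (fun n i => ⌊a i n * α i⌋) B η := by
      intro j
      have hj : (0 : ℝ) ≤ j := Nat.cast_nonneg j
      exact hK (fun _ => -((j : ℝ) + 1)) (fun _ => (j : ℝ) + 1) (fun i n x => a i n * x)
        (fun i => by linarith) (fun i => Pool.Agent.N24.KM.Mt.koksma_lin (a i) δ hδ (ha i) _ _)
    filter_upwards [ae_all_iff.2 h1] with α hα
    obtain ⟨j, hj⟩ := Pool.Agent.N24.KM.Mt.exists_bound α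
    refine hα j fun i => ?_
    have := abs_le.1 (hj i)
    constructor <;> linarith
  · intro k ξ hk hξ
    have h1 : ∀ j : ℕ, ∀ᵐ α : ι → ℝ,
        (∀ i, α i ∈ Set.Icc (1 : ℝ) ((j : ℝ) + 2)) →
        Seldom (fun n i => ⌊ξ i * α i ^ k n⌋) B η := by
      intro j
      have hj : (0 : ℝ) ≤ j := Nat.cast_nonneg j
      exact hK (fun _ => 1) (fun _ => (j : ℝ) + 2) (fun i n x => ξ i * x ^ k n)
        (fun i => by linarith) (fun i => Pool.Agent.N24.KM.Mt.koksma_pow k (ξ i) hk (hξ i) _)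
    filter_upwards [ae_all_iff.2 h1] with α hα hα1
    obtain ⟨j, hj⟩ := Pool.Agent.N24.KM.Mt.exists_bound α
    refine hα j fun i => ?_
    have := abs_le.1 (hj i)
    have := hα1 i
    constructor <;> linarith

end

section
variable {J : Type} [Fintype J] [DecidableEq J]

/-- the distinguished coordinate is not zero and has a prime factor `p`, `T₀ < p ≤ T'`, which does not
divide the value of `R` at the other coordinates -/
def Own (R : MvPolynomial J ℤ) (T₀ T' : ℕ) (c : Option J → ℤ) : Prop :=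
  c none ≠ 0 ∧ ∃ p : ℕ, p.Prime ∧ T₀ < p ∧ p ≤ T' ∧ (p : ℤ) ∣ c none ∧
    ¬ (p : ℤ) ∣ eval (fun j => c (some j)) R

/-- For every `R ≠ 0`, `T₀` and `ε` there is a number `T'` such that the vectors without the property
`Own R T₀ T'` are contained in the union of a set which is small modulo some `q` and a pronull set. -/
theorem exists_T {R : MvPolynomial J ℤ} (hR : R ≠ 0) (T₀ : ℕ) (ε : ℝ) (hε : 0 < ε) :
    ∃ (T' : ℕ) (B : Set (Option J → ℤ)) (q : ℕ), 0 < q ∧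
      ((((fun (c : Option J → ℤ) (i : Option J) => (c i : ZMod q)) '' B).ncard : ℕ) : ℝ) ≤
        ε * (q : ℝ) ^ Fintype.card (Option J) ∧
      ∀ c : Option J → ℤ, ¬ Own R T₀ T' c → c ∈ B ∨
        c ∈ {c : Option J → ℤ | eval c (X none : MvPolynomial (Option J) ℤ) = 0} := by
  classical
  obtain ⟨P, hP, hPc⟩ := Pool.Agent.N265.ORB.bad_small hR T₀ 1 one_pos ε hε
  refine ⟨P.sup id, Pool.Agent.N265.ORB.Bad R P, ∏ p ∈ P, p,
    Finset.prod_pos fun p hp => (hP p hp).1.pos, hPc, fun c hc => ?_⟩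
  by_cases h0 : c none = 0
  · right
    show eval c (X none : MvPolynomial (Option J) ℤ) = 0
    rw [eval_X, h0]
  · left
    refine fun p hp hmem => hc ⟨h0, p, (hP p hp).1, (hP p hp).2.1,
      Finset.le_sup (f := id) hp, ?_, ?_⟩
    · exact (ZMod.intCast_zmod_eq_zero_iff_dvd _ _).1 hmem.1
    · intro hdvd
      apply hmem.2
      have h3 := Pool.Agent.N265.ORB.eval_red p R (fun j => c (some j))
      show eval (fun j => ((c (some j) : ℤ) : ZMod p)) (Pool.Agent.N265.ORB.mp p R) = 0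
      rw [h3]
      exact (ZMod.intCast_zmod_eq_zero_iff_dvd _ _).2 hdvd

/-- the zeros of the distinguished coordinate -/
theorem zero_pronull : ProNull {c : Option J → ℤ | eval c (X none : MvPolynomial (Option J) ℤ) = 0} :=
  (Pool.Agent.N24.RW.clo (Option J)).2.2.2.1 _ (X_ne_zero _)

theorem count_of {c : ℕ → Option J → ℤ} {R : MvPolynomial J ℤ} {T₀ T' : ℕ} {ε : ℝ} (hε : 0 < ε)
    {B C : Set (Option J → ℤ)} (hBC : ∀ c : Option J → ℤ, ¬ Own R T₀ T' c → c ∈ B ∨ c ∈ C)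
    (h1 : Seldom c B (ε / 2)) (h2 : Rarely c C) :
    ∀ᶠ N : ℕ in atTop, (({n : ℕ | n < N ∧ ¬ Own R T₀ T' (c n)}.ncard : ℕ) : ℝ) ≤ ε * N := by
  have g3 := h1 (ε / 4) (by linarith)
  have g4 := (tendsto_order.1 h2).2 (ε / 4) (by linarith)
  filter_upwards [g3, g4, eventually_gt_atTop 0] with N k3 k4 hN
  have hN' : (0 : ℝ) < N := by exact_mod_cast hN
  rw [div_lt_iff₀ hN'] at k4
  have hsub : {n : ℕ | n < N ∧ ¬ Own R T₀ T' (c n)} ⊆
      {n : ℕ | n < N ∧ c n ∈ B} ∪ {n : ℕ | n < N ∧ c n ∈ C} := by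
    rintro n ⟨hn, hn'⟩
    rcases hBC _ hn' with h | h
    · exact Or.inl ⟨hn, h⟩
    · exact Or.inr ⟨hn, h⟩
  have hf : ∀ S : Set (Option J → ℤ), {n : ℕ | n < N ∧ c n ∈ S}.Finite :=
    fun S => (Set.finite_Iio N).subset fun n hn => hn.1
  have h5 := (Set.ncard_le_ncard hsub ((hf B).union (hf C))).trans (Set.ncard_union_le _ _)
  have h6 : (({n : ℕ | n < N ∧ ¬ Own R T₀ T' (c n)}.ncard : ℕ) : ℝ) ≤
      (({n : ℕ | n < N ∧ c n ∈ B}.ncard : ℕ) : ℝ) + (({n : ℕ | n < N ∧ c n ∈ C}.ncard : ℕ) : ℝ) := by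
    exact_mod_cast h5
  calc _ ≤ _ := h6
    _ ≤ (ε / 2 + ε / 4) * N + ε / 4 * N := add_le_add k3 k4.le
    _ ≤ ε * N := by nlinarith

/-- **Metric sequences.** There is a function `T'` of a polynomial `R`, a bound `T₀` and an integer `k`,
such that for all metric sequences of vectors, outside a null set, for ALL `R ≠ 0`, `T₀` and `k`, all but
the proportion `1 / (k + 1)` of the members have the property `Own R T₀ T'`. -/
theorem mult_metric : ∃ T' : MvPolynomial J ℤ → ℕ → ℕ → ℕ,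
    (∀ (a b : Option J → ℝ) (f : Option J → ℕ → ℝ → ℝ), (∀ i, a i < b i) →
      (∀ i, Koksma (a i) (b i) (f i)) →
      ∀ᵐ α : Option J → ℝ, (∀ i, α i ∈ Set.Icc (a i) (b i)) →
        ∀ R : MvPolynomial J ℤ, R ≠ 0 → ∀ T₀ k : ℕ, ∀ᶠ N : ℕ in atTop,
          (({n : ℕ | n < N ∧ ¬ Own R T₀ (T' R T₀ k) (fun i => ⌊f i n (α i)⌋)}.ncard : ℕ) : ℝ) ≤
            1 / ((k : ℝ) + 1) * N) ∧
    (∀ (a : Option J → ℕ → ℝ) (δ : ℝ), 0 < δ → (∀ i m n, m ≠ n → δ ≤ |a i m - a i n|) →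
      ∀ᵐ α : Option J → ℝ,
        ∀ R : MvPolynomial J ℤ, R ≠ 0 → ∀ T₀ k : ℕ, ∀ᶠ N : ℕ in atTop,
          (({n : ℕ | n < N ∧ ¬ Own R T₀ (T' R T₀ k) (fun i => ⌊a i n * α i⌋)}.ncard : ℕ) : ℝ) ≤
            1 / ((k : ℝ) + 1) * N) ∧
    (∀ (e : ℕ → ℕ) (ξ : Option J → ℝ), Function.Injective e → (∀ i, ξ i ≠ 0) →
      ∀ᵐ α : Option J → ℝ, (∀ i, 1 < α i) →
        ∀ R : MvPolynomial J ℤ, R ≠ 0 → ∀ T₀ k : ℕ, ∀ᶠ N : ℕ in atTop,
          (({n : ℕ | n < N ∧ ¬ Own R T₀ (T' R T₀ k) (fun i => ⌊ξ i * α i ^ e n⌋)}.ncard : ℕ) : ℝ) ≤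
            1 / ((k : ℝ) + 1) * N) := by
  classical
  have hex : ∀ (R : MvPolynomial J ℤ) (T₀ k : ℕ), ∃ (T' : ℕ) (B : Set (Option J → ℤ)) (q : ℕ),
      R ≠ 0 → 0 < q ∧
      ((((fun (c : Option J → ℤ) (i : Option J) => (c i : ZMod q)) '' B).ncard : ℕ) : ℝ) ≤
        1 / ((k : ℝ) + 1) / 2 * (q : ℝ) ^ Fintype.card (Option J) ∧
      ∀ c : Option J → ℤ, ¬ Own R T₀ T' c → c ∈ B ∨
        c ∈ {c : Option J → ℤ | eval c (X none : MvPolynomial (Option J) ℤ) = 0} := by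
    intro R T₀ k
    by_cases hR : R = 0
    · exact ⟨0, ∅, 0, fun h => absurd hR h⟩
    · obtain ⟨T', B, q, h⟩ := exists_T hR T₀ (1 / ((k : ℝ) + 1) / 2) (by positivity)
      exact ⟨T', B, q, fun _ => h⟩
  choose T' B q hT using hex
  have hcnt : Countable (MvPolynomial J ℤ) := by
    let g : MvPolynomial J ℤ → ((J →₀ ℕ) →₀ ℤ) := fun p =>
      Finsupp.onFinset p.support (fun m => coeff m p) (by
        intro m hm
        exact mem_support_iff.2 hm)
    have hg : Function.Injective g := by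
      intro p q hpq
      ext m
      exact DFunLike.congr_fun hpq m
    exact hg.countable
  have hpn := Pool.Agent.N24.KM.main (Option J) _ (zero_pronull (J := J))
  have hk : ∀ k : ℕ, (0 : ℝ) < 1 / ((k : ℝ) + 1) := fun k => by positivity
  -- the general argument
  have gen : ∀ (c : (Option J → ℝ) → ℕ → Option J → ℤ) (P : (Option J → ℝ) → Prop),
      (∀ (B : Set (Option J → ℤ)) (q : ℕ) (η : ℝ), 0 < q →
        ((((fun (c : Option J → ℤ) (i : Option J) => (c i : ZMod q)) '' B).ncard : ℕ) : ℝ) ≤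
          η * (q : ℝ) ^ Fintype.card (Option J) → ∀ᵐ α : Option J → ℝ, P α → Seldom (c α) B η) →
      (∀ᵐ α : Option J → ℝ, P α → Rarely (c α)
        {c : Option J → ℤ | eval c (X none : MvPolynomial (Option J) ℤ) = 0}) →
      ∀ᵐ α : Option J → ℝ, P α → ∀ R : MvPolynomial J ℤ, R ≠ 0 → ∀ T₀ k : ℕ, ∀ᶠ N : ℕ in atTop,
          (({n : ℕ | n < N ∧ ¬ Own R T₀ (T' R T₀ k) (c α n)}.ncard : ℕ) : ℝ) ≤
            1 / ((k : ℝ) + 1) * N := by
    intro c P h1 h2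
    have h3 : ∀ᵐ α : Option J → ℝ, ∀ R : MvPolynomial J ℤ, ∀ T₀ k : ℕ, R ≠ 0 → P α →
        Seldom (c α) (B R T₀ k) (1 / ((k : ℝ) + 1) / 2) := by
      rw [ae_all_iff]
      intro R
      rw [ae_all_iff]
      intro T₀
      rw [ae_all_iff]
      intro k
      rw [ae_all_iff]
      intro hR
      exact h1 _ (q R T₀ k) _ (hT R T₀ k hR).1 (hT R T₀ k hR).2.1
    filter_upwards [h2, h3] with α hα2 hα3 hP R hR T₀ k
    exact count_of (hk k) (hT R T₀ k hR).2.2 (hα3 R T₀ k hR hP) (hα2 hP)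
  refine ⟨T', fun a b f hab hf => ?_, fun a δ hδ ha => ?_, fun e ξ he hξ => ?_⟩
  · exact gen (fun α n i => ⌊f i n (α i)⌋) (fun α => ∀ i, α i ∈ Set.Icc (a i) (b i))
      (fun B q η hq hB => (metric_eta B q hq η hB).1 a b f hab hf) (hpn.1 a b f hab hf)
  · have h := gen (fun α n i => ⌊a i n * α i⌋) (fun _ => True)
      (fun B q η hq hB => by
        filter_upwards [(metric_eta B q hq η hB).2.1 a δ hδ ha] with α hα _
        exact hα) (by
        filter_upwards [hpn.2.1 a δ hδ ha] with α hα _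
        exact hα)
    filter_upwards [h] with α hα
    exact hα trivial
  · exact gen (fun α n i => ⌊ξ i * α i ^ e n⌋) (fun α => ∀ i, 1 < α i)
      (fun B q η hq hB => (metric_eta B q hq η hB).2.2 e ξ he hξ) (hpn.2.2 e ξ he hξ)

end

end Pool.Agent.N107.KM
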